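import Mathlib

/-!
# Vertex boundaries in a finite graph with a target set

`bd G T A` is the set of the vertices of `A` which belong to the target `T` or have a neighbour
outside `A`.  Its cardinality is a submodular function of `A`; `Cl` are the sets all of whose
proper supersets have a larger boundary.
-/

namespace K4L

variable {U : Type*} [Fintype U]

open Classical in
/-- The boundary of `A`. -/
noncomputable def bd (G : SimpleGraph U) (T A : Finset U) : Finset U :=
  A.filter (fun a => a ∈ T ∨ ∃ b, b ∉ A ∧ G.Adj a b)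

variable {G : SimpleGraph U} {T : Finset U}

theorem mem_bd {A : Finset U} {a : U} :
    a ∈ bd G T A ↔ a ∈ A ∧ (a ∈ T ∨ ∃ b, b ∉ A ∧ G.Adj a b) := by
  classical
  unfold bd
  rw [Finset.mem_filter]

theorem bd_sub (A : Finset U) : bd G T A ⊆ A := fun _ ha => (mem_bd.1 ha).1

/-- A vertex of the interior has all its neighbours in the set. -/
theorem adj_mem {A : Finset U} {a b : U} (ha : a ∈ A) (hb : a ∉ bd G T A) (h : G.Adj a b) :
    b ∈ A := by
  by_contra hbA
  exact hb (mem_bd.2 ⟨ha, Or.inr ⟨b, hbA, h⟩⟩)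

theorem notMem_T {A : Finset U} {a : U} (ha : a ∈ A) (hb : a ∉ bd G T A) : a ∉ T :=
  fun h => hb (mem_bd.2 ⟨ha, Or.inl h⟩)

theorem bd_anti {A B : Finset U} (hAB : A ⊆ B) {a : U} (ha : a ∈ A) (hb : a ∈ bd G T B) :
    a ∈ bd G T A := by
  rcases (mem_bd.1 hb).2 with h | ⟨b, hbB, h⟩
  · exact mem_bd.2 ⟨ha, Or.inl h⟩
  · exact mem_bd.2 ⟨ha, Or.inr ⟨b, fun h' => hbB (hAB h'), h⟩⟩

section dec

variable [DecidableEq U]

theorem bd_inter {A B : Finset U} {a : U} (h : a ∈ bd G T (A ∩ B)) :
    a ∈ bd G T A ∨ a ∈ bd G T B := by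
  obtain ⟨hab, h1⟩ := mem_bd.1 h
  rw [Finset.mem_inter] at hab
  rcases h1 with h1 | ⟨b, hb, h1⟩
  · exact Or.inl (mem_bd.2 ⟨hab.1, Or.inl h1⟩)
  · rw [Finset.mem_inter, not_and_or] at hb
    rcases hb with hb | hb
    · exact Or.inl (mem_bd.2 ⟨hab.1, Or.inr ⟨b, hb, h1⟩⟩)
    · exact Or.inr (mem_bd.2 ⟨hab.2, Or.inr ⟨b, hb, h1⟩⟩)

theorem bd_union {A B : Finset U} {a : U} (h : a ∈ bd G T (A ∪ B)) :
    a ∈ bd G T A ∨ a ∈ bd G T B := by
  obtain ⟨hab, -⟩ := mem_bd.1 h
  rw [Finset.mem_union] at hab
  rcases hab with hab | hab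
  · exact Or.inl (bd_anti Finset.subset_union_left hab h)
  · exact Or.inr (bd_anti Finset.subset_union_right hab h)

/-- Submodularity. -/
theorem bd_submod (A B : Finset U) :
    (bd G T (A ∪ B)).card + (bd G T (A ∩ B)).card ≤ (bd G T A).card + (bd G T B).card := by
  rw [← Finset.card_union_add_card_inter, ← Finset.card_union_add_card_inter (bd G T A)]
  refine add_le_add (Finset.card_le_card ?_) (Finset.card_le_card ?_)
  · intro a ha
    rw [Finset.mem_union] at ha ⊢
    rcases ha with ha | ha
    · exact bd_union ha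
    · exact bd_inter ha
  · intro a ha
    rw [Finset.mem_inter] at ha ⊢
    have h1 := Finset.mem_inter.1 (bd_sub _ ha.2)
    exact ⟨bd_anti Finset.subset_union_left h1.1 ha.1,
      bd_anti Finset.subset_union_right h1.2 ha.1⟩

theorem bd_biUnion {ι : Type*} (s : Finset ι) (f : ι → Finset U) :
    bd G T (s.biUnion f) ⊆ s.biUnion (fun i => bd G T (f i)) := by
  intro a ha
  obtain ⟨i, hi, hai⟩ := Finset.mem_biUnion.1 (bd_sub _ ha)
  exact Finset.mem_biUnion.2 ⟨i, hi, bd_anti (Finset.subset_biUnion_of_mem f hi) hai ha⟩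

end dec

/-- Every proper superset has a larger boundary. -/
def Cl (G : SimpleGraph U) (T A : Finset U) : Prop :=
  ∀ B, A ⊆ B → (bd G T B).card ≤ (bd G T A).card → B = A

/-- `A` is the closed hull of `X`. -/
structure Hull (G : SimpleGraph U) (T X A : Finset U) : Prop where
  sub : X ⊆ A
  cl : Cl G T A
  min : ∀ B, X ⊆ B → (bd G T A).card ≤ (bd G T B).card

theorem exists_hull (G : SimpleGraph U) (T X : Finset U) : ∃ A, Hull G T X A := by
  classical
  set N := Fintype.card U with hN
  set f : Finset U → ℕ := fun A => (bd G T A).card * (N + 1) + (N - A.card) with hf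
  obtain ⟨A, hA, hmin⟩ := Finset.exists_min_image (Finset.univ.filter (fun A => X ⊆ A)) f
    ⟨Finset.univ, by simp⟩
  have hXA : X ⊆ A := by simpa using hA
  have key : ∀ B, X ⊆ B → (bd G T A).card < (bd G T B).card ∨
      ((bd G T A).card = (bd G T B).card ∧ B.card ≤ A.card) := by
    intro B hB
    have h1 := hmin B (by simpa using hB)
    simp only [hf] at h1
    have h2 : B.card ≤ N := Finset.card_le_univ B
    have h3 : A.card ≤ N := Finset.card_le_univ A
    rcases lt_trichotomy (bd G T A).card (bd G T B).card with h | h | h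
    · exact Or.inl h
    · refine Or.inr ⟨h, ?_⟩
      rw [h] at h1
      omega
    · exfalso
      have h4 : (bd G T B).card + 1 ≤ (bd G T A).card := h
      have h5 : ((bd G T B).card + 1) * (N + 1) ≤ (bd G T A).card * (N + 1) :=
        Nat.mul_le_mul_right _ h4
      rw [add_mul] at h5
      omega
  refine ⟨A, hXA, ?_, ?_⟩
  · intro B hAB hB
    rcases key B (hXA.trans hAB) with h | ⟨-, h⟩
    · omega
    · exact (Finset.eq_of_subset_of_card_le hAB h).symm
  · intro B hB
    rcases key B hB with h | ⟨h, -⟩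
    · exact h.le
    · exact h.le

theorem Cl.lt {A B : Finset U} (hA : Cl G T A) (hAB : A ⊆ B) (hne : B ≠ A) :
    (bd G T A).card < (bd G T B).card := by
  by_contra h
  exact hne (hA B hAB (not_lt.1 h))

theorem Cl.le {A B : Finset U} (hA : Cl G T A) (hAB : A ⊆ B) :
    (bd G T A).card ≤ (bd G T B).card := by
  by_cases h : B = A
  · rw [h]
  · exact (hA.lt hAB h).le

variable [DecidableEq U]

/-- A set containing `X` can be enlarged by the hull of `X`. -/
theorem Hull.absorb {X A B : Finset U} (h : Hull G T X A) (hB : X ⊆ B) :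
    (bd G T (B ∪ A)).card ≤ (bd G T B).card := by
  have h1 := bd_submod (G := G) (T := T) B A
  have h2 := h.min (B ∩ A) (Finset.subset_inter hB h.sub)
  omega

theorem Cl.inter {A B : Finset U} (hA : Cl G T A) (hB : Cl G T B) : Cl G T (A ∩ B) := by
  obtain ⟨C, hC⟩ := exists_hull G T (A ∩ B)
  have h1 : A ∪ C = A := hA _ Finset.subset_union_left (hC.absorb Finset.inter_subset_left)
  have h2 : B ∪ C = B := hB _ Finset.subset_union_left (hC.absorb Finset.inter_subset_right)
  have h3 : C = A ∩ B := by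
    refine Finset.Subset.antisymm (Finset.subset_inter ?_ ?_) hC.sub
    · rw [← h1]; exact Finset.subset_union_right
    · rw [← h2]; exact Finset.subset_union_right
  rw [← h3]
  exact hC.cl

end K4L
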