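import Pool.Agent.Helper82.K4.Petal

/-!
# The fan lemma

Either there are `m` different vertices of `Q` with triples of neighbours whose union is linked to
the target set, or a bounded set of vertices can be removed so that all other vertices of `Q` lie
in pockets with at most two attachments.
-/

namespace K4L

variable {U : Type*} [Fintype U] [DecidableEq U]

/-- `m` different vertices of `Q` with triples of neighbours whose union is linked to `T`. -/
def Good (G : SimpleGraph U) (T Q : Finset U) (m : ℕ) : Prop :=
  ∃ (z : Fin m → U) (t : Fin m → Finset U), Function.Injective z ∧ (∀ i, z i ∈ Q) ∧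
    (∀ i, ∀ x ∈ t i, G.Adj (z i) x) ∧ (∀ i, (t i).card = 3) ∧
    ∀ A : Finset U, (∀ i, t i ⊆ A) → 3 * m ≤ (bd G T A).card

variable {G : SimpleGraph U} {T Q : Finset U}

omit [DecidableEq U] in
theorem good_zero : Good G T Q 0 :=
  ⟨fun i => i.elim0, fun i => i.elim0, fun i => i.elim0, fun i => i.elim0, fun i => i.elim0,
    fun i => i.elim0, fun _ _ => by simp⟩

theorem card_bd_insert (A : Finset U) (x : U) :
    (bd G T (insert x A)).card ≤ (bd G T A).card + 1 := by
  refine (Finset.card_le_card (?_ : _ ⊆ insert x (bd G T A))).trans (Finset.card_insert_le _ _)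
  intro a ha
  rcases Finset.mem_insert.1 (bd_sub _ ha) with rfl | haA
  · exact Finset.mem_insert_self _ _
  · exact Finset.mem_insert_of_mem (bd_anti (Finset.subset_insert _ _) haA ha)

/-- One step of the greedy choice. -/
theorem hull_step {A B : Finset U} (hA : Cl G T A) {x : U} (hx : x ∉ A)
    (hB : Hull G T (insert x A) B) : (bd G T B).card = (bd G T A).card + 1 := by
  have h1 : A ⊆ B := (Finset.subset_insert _ _).trans hB.sub
  have h2 := hA.lt h1 (fun h => hx (h ▸ hB.sub (Finset.mem_insert_self _ _)))
  have h3 := (hB.min _ (Finset.Subset.refl _)).trans (card_bd_insert (G := G) (T := T) A x)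
  omega

/-- If the hull of `A₀` and a set `N` is three steps above `A₀`, then so is the hull of `A₀` and
three elements of `N`. -/
theorem exists_triple {A₀ N F : Finset U} (hA : Cl G T A₀) (hF : Hull G T (A₀ ∪ N) F)
    (h : (bd G T A₀).card + 3 ≤ (bd G T F).card) :
    ∃ t ⊆ N, t.card = 3 ∧ ∀ A, A₀ ∪ t ⊆ A → (bd G T A₀).card + 3 ≤ (bd G T A).card := by
  have step : ∀ B : Finset U, Cl G T B → A₀ ⊆ B → (bd G T B).card < (bd G T A₀).card + 3 →
      ∃ x ∈ N, x ∉ B := by
    intro B hB hAB hlt
    by_contra hcon
    push Not at hcon
    have := hF.min B (Finset.union_subset hAB hcon)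
    omega
  obtain ⟨x, hx, hxA⟩ := step A₀ hA (Finset.Subset.refl _) (by omega)
  obtain ⟨B, hB⟩ := exists_hull G T (insert x A₀)
  have hBo := hull_step hA hxA hB
  have hAB : A₀ ⊆ B := (Finset.subset_insert _ _).trans hB.sub
  obtain ⟨y, hy, hyB⟩ := step B hB.cl hAB (by omega)
  obtain ⟨C, hC⟩ := exists_hull G T (insert y B)
  have hCo := hull_step hB.cl hyB hC
  have hBC : B ⊆ C := (Finset.subset_insert _ _).trans hC.sub
  obtain ⟨w, hw, hwC⟩ := step C hC.cl (hAB.trans hBC) (by omega)
  obtain ⟨E, hE⟩ := exists_hull G T (insert w C)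
  have hEo := hull_step hC.cl hwC hE
  have hxB : x ∈ B := hB.sub (Finset.mem_insert_self _ _)
  have hyC : y ∈ C := hC.sub (Finset.mem_insert_self _ _)
  have hxy : x ≠ y := fun h => hyB (h ▸ hxB)
  have hxw : x ≠ w := fun h => hwC (h ▸ hBC hxB)
  have hyw : y ≠ w := fun h => hwC (h ▸ hyC)
  refine ⟨{x, y, w}, ?_, Finset.card_eq_three.2 ⟨x, y, w, hxy, hxw, hyw, rfl⟩, ?_⟩
  · intro a ha
    simp only [Finset.mem_insert, Finset.mem_singleton] at ha
    rcases ha with rfl | rfl | rfl
    · exact hx
    · exact hy
    · exact hw
  · intro A hAt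
    have hmem : ∀ a ∈ ({x, y, w} : Finset U), a ∈ A := fun a ha =>
      hAt (Finset.mem_union_right _ ha)
    have h1 := hB.absorb (B := A) (by
      intro a ha
      rcases Finset.mem_insert.1 ha with rfl | ha
      · exact hmem _ (by simp)
      · exact hAt (Finset.mem_union_left _ ha))
    have h2 := hC.absorb (B := A ∪ B) (by
      intro a ha
      rcases Finset.mem_insert.1 ha with rfl | ha
      · exact Finset.mem_union_left _ (hmem _ (by simp))
      · exact Finset.mem_union_right _ ha)
    have h3 := hE.min (A ∪ B ∪ C) (by
      intro a ha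
      rcases Finset.mem_insert.1 ha with rfl | ha
      · exact Finset.mem_union_left _ (Finset.mem_union_left _ (hmem _ (by simp)))
      · exact Finset.mem_union_right _ ha)
    omega

/-- **The fan lemma.** -/
theorem fan (hQT : ∀ z ∈ Q, z ∉ T) (m : ℕ) : Good G T Q m ∨
    ∃ j < m, ∃ X₀ S : Finset U, X₀ ⊆ S ∧ X₀.card ≤ Ctx.nX (3 * j) + j ∧
      (∀ z ∈ Q, z ∈ S → z ∈ X₀) ∧
      ∀ z ∈ Q, z ∉ S → ∃ E : Finset U, E.card ≤ 2 ∧
        ∀ u, Relation.ReflTransGen (fun a b => G.Adj a b ∧ b ∉ S) z u → u ∉ T ∧
          ∀ v, G.Adj u v → v ∈ S → v ∈ X₀ ∨ v ∈ E := by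
  classical
  induction m with
  | zero => exact Or.inl good_zero
  | succ m ih =>
    rcases ih with ih | ⟨j, hj, ih⟩
    swap
    · exact Or.inr ⟨j, by omega, ih⟩
    obtain ⟨z, t, hz, hzQ, htz, ht3, hlink⟩ := ih
    obtain ⟨A₀, hA₀⟩ := exists_hull G T (Finset.univ.biUnion t)
    have hord : (bd G T A₀).card = 3 * m := by
      refine le_antisymm ?_ (hlink A₀ fun i => (Finset.subset_biUnion_of_mem t
        (Finset.mem_univ i)).trans hA₀.sub)
      refine (hA₀.min _ (Finset.Subset.refl _)).trans ?_
      refine (Finset.card_le_card (bd_sub _)).trans ?_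
      refine Finset.card_biUnion_le.trans ?_
      simp [ht3, mul_comm]
    choose F hF using fun w : U => exists_hull G T (A₀ ∪ Finset.univ.filter (fun y => G.Adj w y))
    have hFA : ∀ w, A₀ ⊆ F w := fun w => Finset.subset_union_left.trans (hF w).sub
    have hFn : ∀ w y, G.Adj w y → y ∈ F w := fun w y h =>
      (hF w).sub (Finset.mem_union_right _ (by simp [h]))
    by_cases hex : ∃ w ∈ Q, w ∉ Set.range z ∧ w ∉ A₀ ∧ 3 * m + 3 ≤ (bd G T (F w)).card
    · -- a new gadget
      left
      obtain ⟨w, hwQ, hwz, hwA, hwo⟩ := hex
      obtain ⟨s, hs, hs3, hs4⟩ := exists_triple hA₀.cl (hF w) (by rw [hord]; exact hwo)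
      refine ⟨Fin.snoc z w, Fin.snoc t s, ?_, ?_, ?_, ?_, ?_⟩
      · intro a b hab
        induction a using Fin.lastCases with
        | last =>
          induction b using Fin.lastCases with
          | last => rfl
          | cast b =>
            simp only [Fin.snoc_last, Fin.snoc_castSucc] at hab
            exact absurd ⟨b, hab.symm⟩ hwz
        | cast a =>
          induction b using Fin.lastCases with
          | last =>
            simp only [Fin.snoc_last, Fin.snoc_castSucc] at hab
            exact absurd ⟨a, hab⟩ hwz
          | cast b =>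
            simp only [Fin.snoc_castSucc] at hab
            rw [hz hab]
      · intro i
        induction i using Fin.lastCases with
        | last => simpa using hwQ
        | cast i => simpa using hzQ i
      · intro i
        induction i using Fin.lastCases with
        | last =>
          simp only [Fin.snoc_last]
          intro x hx
          simpa using hs hx
        | cast i =>
          simp only [Fin.snoc_castSucc]
          exact htz i
      · intro i
        induction i using Fin.lastCases with
        | last => simpa using hs3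
        | cast i => simpa using ht3 i
      · intro A hA
        have h1 : Finset.univ.biUnion t ⊆ A := by
          intro x hx
          obtain ⟨i, -, hx⟩ := Finset.mem_biUnion.1 hx
          have := hA i.castSucc
          rw [Fin.snoc_castSucc] at this
          exact this hx
        have h2 : s ⊆ A := by
          have := hA (Fin.last m)
          rwa [Fin.snoc_last] at this
        have h3 := hA₀.absorb (B := A) h1
        have h4 := hs4 (A ∪ A₀) (Finset.union_subset Finset.subset_union_right
          (h2.trans Finset.subset_union_left))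
        rw [hord] at h4
        omega
    · -- petals
      right
      push Not at hex
      set Q' := Q.filter (fun w => w ∉ Set.range z) with hQ'
      have c : Ctx G T Q' A₀ F (3 * m) :=
        { cl := hA₀.cl
          ord := hord
          QT := fun w hw => hQT w (Finset.mem_filter.1 hw).1
          subF := fun w _ _ => hFA w
          nbF := fun w _ _ => hFn w
          clF := fun w _ _ => (hF w).cl
          ordF := fun w hw hwA => by
            have := hex w (Finset.mem_filter.1 hw).1 (Finset.mem_filter.1 hw).2 hwA
            omega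
          minF := fun w _ _ B hB hBn => (hF w).min B (Finset.union_subset hB (by
            intro y hy
            exact hBn y (by simpa using hy))) }
      obtain ⟨X₀, S, hXS, hXc, hQS, hpet⟩ := c.petal
      set Z : Finset U := Finset.univ.image z with hZ
      have hZc : Z.card ≤ m := by
        refine Finset.card_image_le.trans ?_
        simp
      refine ⟨m, by omega, X₀ ∪ Z, S ∪ Z, Finset.union_subset_union hXS (Finset.Subset.refl _),
        ?_, ?_, ?_⟩
      · exact (Finset.card_union_le _ _).trans (by omega)
      · intro w hw hwS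
        rw [Finset.mem_union] at hwS ⊢
        by_cases hwZ : w ∈ Z
        · exact Or.inr hwZ
        · refine Or.inl (hQS w (Finset.mem_filter.2 ⟨hw, ?_⟩) (hwS.resolve_right hwZ))
          rintro ⟨i, rfl⟩
          exact hwZ (Finset.mem_image_of_mem _ (Finset.mem_univ _))
      · intro w hw hwS
        rw [Finset.mem_union, not_or] at hwS
        have hwQ' : w ∈ Q' := by
          refine Finset.mem_filter.2 ⟨hw, ?_⟩
          rintro ⟨i, rfl⟩
          exact hwS.2 (Finset.mem_image_of_mem _ (Finset.mem_univ _))
        obtain ⟨E, hE, hpE⟩ := hpet w hwQ' hwS.1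
        refine ⟨E, hE, fun u hu => ?_⟩
        have hu' : Relation.ReflTransGen (fun a b => G.Adj a b ∧ b ∉ S) w u :=
          Relation.ReflTransGen.mono
            (fun a b hab => ⟨hab.1, fun h => hab.2 (Finset.mem_union_left _ h)⟩) _ _ hu
        obtain ⟨h1, h2⟩ := hpE u hu'
        refine ⟨h1, fun v huv hvS => ?_⟩
        rw [Finset.mem_union] at hvS
        rcases hvS with hvS | hvZ
        · rcases h2 v huv hvS with h3 | h3
          · exact Or.inl (Finset.mem_union_left _ h3)
          · exact Or.inr h3
        · exact Or.inl (Finset.mem_union_right _ hvZ)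

end K4L
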