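import Pool.Agent.Helper82.K4.Bd

/-!
# Petals

`A₀` is a closed set, and every vertex `z ∈ Q`, `z ∉ A₀`, lies with its neighbours in a closed set
`F z ⊇ A₀` whose boundary has at most two more vertices.  Then a bounded set `X₀` of vertices can
be removed so that all other vertices of `Q` lie in pockets with at most two attachments.
-/

namespace K4L

variable {U : Type*} [Fintype U] [DecidableEq U]

/-- The standing assumptions. -/
structure Ctx (G : SimpleGraph U) (T Q A₀ : Finset U) (F : U → Finset U) (h : ℕ) : Prop where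
  cl : Cl G T A₀
  ord : (bd G T A₀).card = h
  QT : ∀ z ∈ Q, z ∉ T
  subF : ∀ z ∈ Q, z ∉ A₀ → A₀ ⊆ F z
  nbF : ∀ z ∈ Q, z ∉ A₀ → ∀ y, G.Adj z y → y ∈ F z
  clF : ∀ z ∈ Q, z ∉ A₀ → Cl G T (F z)
  ordF : ∀ z ∈ Q, z ∉ A₀ → (bd G T (F z)).card ≤ h + 2
  minF : ∀ z ∈ Q, z ∉ A₀ → ∀ B, A₀ ⊆ B → (∀ y, G.Adj z y → y ∈ B) →
    (bd G T (F z)).card ≤ (bd G T B).card

/-- A closed set one step above `A₀`. -/
def Pt (G : SimpleGraph U) (T A₀ : Finset U) (h : ℕ) (P : Finset U) : Prop :=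
  Cl G T P ∧ A₀ ⊆ P ∧ (bd G T P).card = h + 1

/-- A maximal set among the `F z`. -/
def Mx (Q A₀ : Finset U) (F : U → Finset U) (X : Finset U) : Prop :=
  (∃ z ∈ Q, z ∉ A₀ ∧ X = F z) ∧ ∀ z ∈ Q, z ∉ A₀ → X ⊆ F z → F z = X

namespace Ctx

variable {G : SimpleGraph U} {T Q A₀ : Finset U} {F : U → Finset U} {h : ℕ}

theorem self_mem (c : Ctx G T Q A₀ F h) {z : U} (hz : z ∈ Q) (hzA : z ∉ A₀) :
    z ∈ F z ∧ z ∉ bd G T (F z) := by
  have h1 : z ∈ F z := by
    have h2 := c.clF z hz hzA (insert z (F z)) (Finset.subset_insert _ _) (Finset.card_le_card ?_)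
    · rw [← h2]; exact Finset.mem_insert_self _ _
    · intro a ha
      rcases Finset.mem_insert.1 (bd_sub _ ha) with rfl | haF
      · exfalso
        rcases (mem_bd.1 ha).2 with h3 | ⟨b, hb, h3⟩
        · exact c.QT a hz h3
        · exact hb (Finset.mem_insert_of_mem (c.nbF a hz hzA b h3))
      · exact bd_anti (Finset.subset_insert _ _) haF ha
  refine ⟨h1, fun h2 => ?_⟩
  rcases (mem_bd.1 h2).2 with h3 | ⟨b, hb, h3⟩
  · exact c.QT z hz h3
  · exact hb (c.nbF z hz hzA b h3)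

theorem exists_Mx (_c : Ctx G T Q A₀ F h) {z : U} (hz : z ∈ Q) (hzA : z ∉ A₀) :
    ∃ X, Mx Q A₀ F X ∧ F z ⊆ X := by
  obtain ⟨w, hw, hmax⟩ := Finset.exists_max_image
    (Q.filter (fun w => w ∉ A₀ ∧ F z ⊆ F w)) (fun w => (F w).card)
    ⟨z, by simp [hz, hzA]⟩
  rw [Finset.mem_filter] at hw
  refine ⟨F w, ⟨⟨w, hw.1, hw.2.1, rfl⟩, ?_⟩, hw.2.2⟩
  intro v hv hvA hwv
  exact (Finset.eq_of_subset_of_card_le hwv
    (hmax v (Finset.mem_filter.2 ⟨hv, hvA, hw.2.2.trans hwv⟩))).symm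

section Mx

variable {X Y : Finset U}

omit [DecidableEq U] in
theorem Mx_cl (c : Ctx G T Q A₀ F h) (hX : Mx Q A₀ F X) : Cl G T X := by
  obtain ⟨⟨z, hz, hzA, rfl⟩, -⟩ := hX
  exact c.clF z hz hzA

omit [DecidableEq U] in
theorem Mx_sub (c : Ctx G T Q A₀ F h) (hX : Mx Q A₀ F X) : A₀ ⊆ X := by
  obtain ⟨⟨z, hz, hzA, rfl⟩, -⟩ := hX
  exact c.subF z hz hzA

omit [DecidableEq U] in
theorem Mx_ord (c : Ctx G T Q A₀ F h) (hX : Mx Q A₀ F X) : (bd G T X).card ≤ h + 2 := by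
  obtain ⟨⟨z, hz, hzA, rfl⟩, -⟩ := hX
  exact c.ordF z hz hzA

omit [Fintype U] [DecidableEq U] in
theorem not_sub (hX : Mx Q A₀ F X) (hY : Mx Q A₀ F Y) (hne : X ≠ Y) : ¬ X ⊆ Y := by
  intro hXY
  obtain ⟨⟨z, hz, hzA, rfl⟩, -⟩ := hY
  exact hne (hX.2 z hz hzA hXY).symm

/-- Two maximal sets meet in `A₀` or in a point. -/
theorem inter_cases (c : Ctx G T Q A₀ F h) (hX : Mx Q A₀ F X) (hY : Mx Q A₀ F Y) (hne : X ≠ Y) :
    X ∩ Y = A₀ ∨ (Pt G T A₀ h (X ∩ Y) ∧ (bd G T X).card = h + 2) := by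
  by_cases h0 : X ∩ Y = A₀
  · exact Or.inl h0
  right
  have hcl : Cl G T (X ∩ Y) := (c.Mx_cl hX).inter (c.Mx_cl hY)
  have hsub : A₀ ⊆ X ∩ Y := Finset.subset_inter (c.Mx_sub hX) (c.Mx_sub hY)
  have h1 := c.cl.lt hsub h0
  have h2 : (bd G T (X ∩ Y)).card < (bd G T X).card := by
    refine hcl.lt Finset.inter_subset_left fun h => ?_
    exact not_sub hX hY hne (by rw [h]; exact Finset.inter_subset_right)
  have h3 := c.Mx_ord hX
  have h4 := c.ord
  exact ⟨⟨hcl, hsub, by omega⟩, by omega⟩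

theorem Pt_inter (c : Ctx G T Q A₀ F h) {P P' : Finset U} (hP : Pt G T A₀ h P)
    (hP' : Pt G T A₀ h P') (hne : P ≠ P') : P ∩ P' = A₀ := by
  by_contra h0
  have hcl : Cl G T (P ∩ P') := hP.1.inter hP'.1
  have hsub : A₀ ⊆ P ∩ P' := Finset.subset_inter hP.2.1 hP'.2.1
  have h1 := c.cl.lt hsub h0
  have h2 : (bd G T (P ∩ P')).card < (bd G T P).card := by
    refine hcl.lt Finset.inter_subset_left fun h => ?_
    have h3 : P ⊆ P' := by rw [h]; exact Finset.inter_subset_right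
    exact hne (hP.1 P' h3 (by rw [hP.2.2, hP'.2.2])).symm
  have h3 := hP.2.2
  have h4 := c.ord
  omega

/-- A boundary vertex of `A₀` is interior to at most one point. -/
theorem Pt_unique (c : Ctx G T Q A₀ F h) {P P' : Finset U} (hP : Pt G T A₀ h P)
    (hP' : Pt G T A₀ h P') {a : U} (ha : a ∈ bd G T A₀) (haP : a ∉ bd G T P)
    (haP' : a ∉ bd G T P') : P = P' := by
  by_contra hne
  rw [← c.Pt_inter hP hP' hne] at ha
  rcases bd_inter ha with h1 | h1
  · exact haP h1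
  · exact haP' h1

end Mx

/-- The number of vertices of the boundary of the exceptional hull. -/
def nA (h : ℕ) : ℕ := h + h * (h + 1) + h * (h + 2) + h * ((h + 1) * (h + 2))

/-- The number of removed vertices. -/
def nX (h : ℕ) : ℕ := h + nA h + h * (h + 1)

theorem exists_exc (c : Ctx G T Q A₀ F h) : ∃ A' X₀ : Finset U,
    A₀ ⊆ A' ∧ bd G T A₀ ⊆ X₀ ∧ bd G T A' ⊆ X₀ ∧ X₀.card ≤ nX h ∧ X₀ ⊆ A' ∧
    (∀ P, Pt G T A₀ h P → (∃ a ∈ bd G T A₀, a ∉ bd G T P) → P ⊆ A') ∧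
    ∀ X, Mx Q A₀ F X → ¬ X ⊆ A' → ∃ R, A₀ ⊆ R ∧ R ⊆ X ∧ R ⊆ A' ∧ bd G T R ⊆ bd G T X ∧
      bd G T R ⊆ X₀ := by
  classical
  have hq : ∀ a : U, ∃ q : Finset U, (bd G T q).card ≤ h + 1 ∧
      ((∃ P, Pt G T A₀ h P ∧ a ∉ bd G T P) → Pt G T A₀ h q ∧ a ∉ bd G T q) := by
    intro a
    by_cases ha : ∃ P, Pt G T A₀ h P ∧ a ∉ bd G T P
    · obtain ⟨P, hP, haP⟩ := ha
      exact ⟨P, hP.2.2.le, fun _ => ⟨hP, haP⟩⟩
    · exact ⟨A₀, by rw [c.ord]; omega, fun h => absurd h ha⟩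
  choose q hq1 hq2 using hq
  have hf : ∀ a : U, ∃ f : Finset U, (bd G T f).card ≤ h + 2 ∧
      ((∃ X, Mx Q A₀ F X ∧ (∀ P, Pt G T A₀ h P → (∃ b ∈ bd G T A₀, b ∉ bd G T P) → ¬ P ⊆ X) ∧
          a ∉ bd G T X) → Mx Q A₀ F f ∧
        (∀ P, Pt G T A₀ h P → (∃ b ∈ bd G T A₀, b ∉ bd G T P) → ¬ P ⊆ f) ∧ a ∉ bd G T f) := by
    intro a
    by_cases ha : ∃ X, Mx Q A₀ F X ∧
        (∀ P, Pt G T A₀ h P → (∃ b ∈ bd G T A₀, b ∉ bd G T P) → ¬ P ⊆ X) ∧ a ∉ bd G T X
    · obtain ⟨X, hX⟩ := ha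
      exact ⟨X, c.Mx_ord hX.1, fun _ => hX⟩
    · exact ⟨A₀, by rw [c.ord]; omega, fun h => absurd h ha⟩
  choose f hf1 hf2 using hf
  have hg : ∀ b a : U, ∃ g : Finset U, (bd G T g).card ≤ h + 2 ∧
      ((∃ X, Mx Q A₀ F X ∧ q b ⊆ X ∧ a ∉ bd G T X) → Mx Q A₀ F g ∧ q b ⊆ g ∧ a ∉ bd G T g) := by
    intro b a
    by_cases ha : ∃ X, Mx Q A₀ F X ∧ q b ⊆ X ∧ a ∉ bd G T X
    · obtain ⟨X, hX⟩ := ha
      exact ⟨X, c.Mx_ord hX.1, fun _ => hX⟩
    · exact ⟨A₀, by rw [c.ord]; omega, fun h => absurd h ha⟩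
  choose g hg1 hg2 using hg
  set B := bd G T A₀ with hB
  have hBc : B.card = h := c.ord
  set Y := A₀ ∪ B.biUnion q ∪ B.biUnion f ∪ B.biUnion (fun b => (bd G T (q b)).biUnion (g b))
    with hY
  obtain ⟨A', hA'⟩ := exists_hull G T Y
  -- the size of the boundary
  have hbi : ∀ (s : Finset U) (φ : U → Finset U) (n : ℕ), (∀ b ∈ s, (bd G T (φ b)).card ≤ n) →
      (s.biUnion (fun b => bd G T (φ b))).card ≤ s.card * n := by
    intro s φ n hφ
    exact Finset.card_biUnion_le_card_mul _ _ _ hφ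
  have hord : (bd G T A').card ≤ nA h := by
    refine (hA'.min Y (Finset.Subset.refl _)).trans ?_
    have h1 : bd G T Y ⊆ bd G T A₀ ∪ B.biUnion (fun b => bd G T (q b)) ∪
        B.biUnion (fun b => bd G T (f b)) ∪
        B.biUnion (fun b => (bd G T (q b)).biUnion (fun a => bd G T (g b a))) := by
      intro x hx
      simp only [Finset.mem_union]
      rcases bd_union hx with hx | hx
      · rcases bd_union hx with hx | hx
        · rcases bd_union hx with hx | hx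
          · exact Or.inl (Or.inl (Or.inl hx))
          · exact Or.inl (Or.inl (Or.inr (bd_biUnion _ _ hx)))
        · exact Or.inl (Or.inr (bd_biUnion _ _ hx))
      · obtain ⟨b, hb, hx⟩ := Finset.mem_biUnion.1 (bd_biUnion _ _ hx)
        exact Or.inr (Finset.mem_biUnion.2 ⟨b, hb, bd_biUnion _ _ hx⟩)
    refine (Finset.card_le_card h1).trans ?_
    have h2 := hbi B q (h + 1) (fun b _ => hq1 b)
    have h3 := hbi B f (h + 2) (fun b _ => hf1 b)
    have h4 : (B.biUnion (fun b => (bd G T (q b)).biUnion (fun a => bd G T (g b a)))).card ≤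
        B.card * ((h + 1) * (h + 2)) := by
      refine Finset.card_biUnion_le_card_mul _ _ _ fun b _ => ?_
      refine (hbi (bd G T (q b)) (g b) (h + 2) (fun a _ => hg1 b a)).trans ?_
      exact Nat.mul_le_mul_right _ (hq1 b)
    rw [hBc] at h2 h3 h4
    have h5 := Finset.card_union_le (bd G T A₀ ∪ B.biUnion (fun b => bd G T (q b)) ∪
        B.biUnion (fun b => bd G T (f b)))
        (B.biUnion (fun b => (bd G T (q b)).biUnion (fun a => bd G T (g b a))))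
    have h6 := Finset.card_union_le (bd G T A₀ ∪ B.biUnion (fun b => bd G T (q b)))
        (B.biUnion (fun b => bd G T (f b)))
    have h7 := Finset.card_union_le (bd G T A₀) (B.biUnion (fun b => bd G T (q b)))
    have h8 := c.ord
    unfold nA
    omega
  have hsubq : ∀ b ∈ B, q b ⊆ A' := fun b hb x hx => hA'.sub (by
    simp only [hY, Finset.mem_union, Finset.mem_biUnion]
    exact Or.inl (Or.inl (Or.inr ⟨b, hb, hx⟩)))
  have hsubf : ∀ b ∈ B, f b ⊆ A' := fun b hb x hx => hA'.sub (by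
    simp only [hY, Finset.mem_union, Finset.mem_biUnion]
    exact Or.inl (Or.inr ⟨b, hb, hx⟩))
  have hsubg : ∀ b ∈ B, ∀ a ∈ bd G T (q b), g b a ⊆ A' := fun b hb a ha x hx => hA'.sub (by
    simp only [hY, Finset.mem_union, Finset.mem_biUnion]
    exact Or.inr ⟨b, hb, a, ha, hx⟩)
  have hsubA : A₀ ⊆ A' := fun x hx => hA'.sub (by
    simp only [hY, Finset.mem_union]
    exact Or.inl (Or.inl (Or.inl hx)))
  have hexc : ∀ P, Pt G T A₀ h P → (∃ a ∈ B, a ∉ bd G T P) → ∃ b ∈ B, P = q b := by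
    rintro P hP ⟨a, ha, haP⟩
    have h1 := hq2 a ⟨P, hP, haP⟩
    exact ⟨a, ha, c.Pt_unique hP h1.1 ha haP h1.2⟩
  refine ⟨A', B ∪ bd G T A' ∪ B.biUnion (fun b => bd G T (q b)), hsubA, ?_, ?_, ?_, ?_, ?_, ?_⟩
  · exact fun x hx => Finset.mem_union_left _ (Finset.mem_union_left _ hx)
  · exact fun x hx => Finset.mem_union_left _ (Finset.mem_union_right _ hx)
  · have h1 := Finset.card_union_le (B ∪ bd G T A') (B.biUnion (fun b => bd G T (q b)))
    have h2 := Finset.card_union_le B (bd G T A')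
    have h3 := hbi B q (h + 1) (fun b _ => hq1 b)
    rw [hBc] at h2 h3
    unfold nX
    omega
  · intro x hx
    simp only [Finset.mem_union, Finset.mem_biUnion] at hx
    rcases hx with (hx | hx) | ⟨b, hb, hx⟩
    · exact hsubA (bd_sub _ hx)
    · exact bd_sub _ hx
    · exact hsubq b hb (bd_sub _ hx)
  · intro P hP hPe
    obtain ⟨b, hb, rfl⟩ := hexc P hP hPe
    exact hsubq b hb
  · intro X hX hXA
    by_cases hex : ∃ P, Pt G T A₀ h P ∧ (∃ a ∈ B, a ∉ bd G T P) ∧ P ⊆ X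
    · obtain ⟨P, hP, hPe, hPX⟩ := hex
      obtain ⟨b, hb, rfl⟩ := hexc P hP hPe
      refine ⟨q b, hP.2.1, hPX, hsubq b hb, ?_, ?_⟩
      · intro a ha
        by_contra haX
        obtain ⟨h1, h2, h3⟩ := hg2 b a ⟨X, hX, hPX, haX⟩
        have hne : X ≠ g b a := by
          intro h
          exact hXA (h ▸ hsubg b hb a ha)
        have h4 : q b ⊆ X ∩ g b a := Finset.subset_inter hPX h2
        have h5 : X ∩ g b a = q b := by
          rcases c.inter_cases hX h1 hne with h5 | ⟨h5, -⟩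
          · exfalso
            rw [h5] at h4
            have h6 : A₀ = q b := Finset.Subset.antisymm hP.2.1 h4
            have h7 := hP.2.2
            rw [← h6, c.ord] at h7
            omega
          · exact hP.1 _ h4 (by rw [h5.2.2, hP.2.2])
        rw [← h5] at ha
        rcases bd_inter ha with h6 | h6
        · exact haX h6
        · exact h3 h6
      · intro x hx
        exact Finset.mem_union_right _ (Finset.mem_biUnion.2 ⟨b, hb, hx⟩)
    · push Not at hex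
      refine ⟨A₀, Finset.Subset.refl _, c.Mx_sub hX, hsubA, ?_, ?_⟩
      · intro a ha
        by_contra haX
        obtain ⟨h1, h2, h3⟩ := hf2 a ⟨X, hX, fun P hP hPe => hex P hP hPe, haX⟩
        have hne : X ≠ f a := by
          intro h
          exact hXA (h ▸ hsubf a ha)
        have h4 : a ∈ bd G T (X ∩ f a) := by
          rcases c.inter_cases hX h1 hne with h5 | ⟨h5, -⟩
          · rw [h5]; exact ha
          · by_contra h6
            exact hex _ h5 ⟨a, ha, h6⟩ Finset.inter_subset_left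
        rcases bd_inter h4 with h6 | h6
        · exact haX h6
        · exact h3 h6
      · exact fun x hx => Finset.mem_union_left _ (Finset.mem_union_left _ hx)

/-- **Lemma M.** -/
theorem lemM (c : Ctx G T Q A₀ F h) {A' X₀ : Finset U} (hsubA : A₀ ⊆ A')
    (hexc : ∀ P, Pt G T A₀ h P → (∃ a ∈ bd G T A₀, a ∉ bd G T P) → P ⊆ A')
    (hbase : ∀ X, Mx Q A₀ F X → ¬ X ⊆ A' → ∃ R, A₀ ⊆ R ∧ R ⊆ X ∧ R ⊆ A' ∧
      bd G T R ⊆ bd G T X ∧ bd G T R ⊆ X₀)
    {X Y : Finset U} (hX : Mx Q A₀ F X) (hY : Mx Q A₀ F Y) {v : U} (hvY : v ∈ bd G T Y)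
    (hvA : v ∉ A') (hvX : v ∈ X) : v ∈ bd G T X := by
  by_contra hvb
  have hne : X ≠ Y := by
    rintro rfl
    exact hvb hvY
  have hvP : v ∈ X ∩ Y := Finset.mem_inter.2 ⟨hvX, bd_sub _ hvY⟩
  have hvA₀ : v ∉ A₀ := fun h => hvA (hsubA h)
  rcases c.inter_cases hX hY hne with h0 | ⟨hP, -⟩
  · rw [h0] at hvP
    exact hvA₀ hvP
  set P := X ∩ Y with hPdef
  have hPA : bd G T A₀ ⊆ bd G T P := by
    intro a ha
    by_contra haP
    exact hvA (hexc P hP ⟨a, ha, haP⟩ hvP)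
  have hvbP : v ∈ bd G T P := bd_anti Finset.inter_subset_right hvP hvY
  have hbP : bd G T P = insert v (bd G T A₀) := by
    refine (Finset.eq_of_subset_of_card_le ?_ ?_).symm
    · intro x hx
      rcases Finset.mem_insert.1 hx with rfl | hx
      · exact hvbP
      · exact hPA hx
    · rw [Finset.card_insert_of_notMem (fun h => hvA₀ (bd_sub _ h)), hP.2.2, c.ord]
  obtain ⟨R, hAR, hRY, hRA, hRb, -⟩ := hbase Y hY (fun h => hvA (h (bd_sub _ hvY)))
  -- neighbours of `P` in `Y \ P`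
  have hnb : ∀ x ∈ Y, x ∉ P → ∀ y ∈ P, G.Adj x y → y ∈ A₀ := by
    intro x hxY hxP y hyP hxy
    have hyb : y ∈ bd G T P := mem_bd.2 ⟨hyP, Or.inr ⟨x, hxP, hxy.symm⟩⟩
    rw [hbP, Finset.mem_insert] at hyb
    rcases hyb with rfl | hyb
    · exfalso
      exact hxP (Finset.mem_inter.2 ⟨adj_mem hvX hvb hxy.symm, hxY⟩)
    · exact bd_sub _ hyb
  set B := R ∪ (Y \ P) with hBdef
  have hbB : bd G T B ⊆ (bd G T Y).erase v := by
    intro x hx
    rw [Finset.mem_erase]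
    rcases Finset.mem_union.1 (bd_sub _ hx) with hxR | hxY
    · have h1 : x ∈ bd G T R := bd_anti Finset.subset_union_left hxR hx
      exact ⟨fun h => hvA (h ▸ hRA hxR), hRb h1⟩
    · rw [Finset.mem_sdiff] at hxY
      refine ⟨fun h => hxY.2 (h ▸ hvP), ?_⟩
      rcases (mem_bd.1 hx).2 with h1 | ⟨y, hyB, hxy⟩
      · exact mem_bd.2 ⟨hxY.1, Or.inl h1⟩
      · refine mem_bd.2 ⟨hxY.1, Or.inr ⟨y, fun hyY => hyB ?_, hxy⟩⟩
        rw [hBdef, Finset.mem_union, Finset.mem_sdiff]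
        by_cases hyP : y ∈ P
        · exact Or.inl (hAR (hnb x hxY.1 hxY.2 y hyP hxy))
        · exact Or.inr ⟨hyY, hyP⟩
  have hlt : (bd G T B).card < (bd G T Y).card := by
    refine (Finset.card_le_card hbB).trans_lt ?_
    exact Finset.card_erase_lt_of_mem hvY
  obtain ⟨⟨z, hz, hzA, rfl⟩, hmax⟩ := hY
  obtain ⟨hzF, hzb⟩ := c.self_mem hz hzA
  -- `z` is not in `P`
  have hzP : z ∉ P := by
    intro hzP
    have h1 : z ∉ bd G T P := by
      rw [hbP, Finset.mem_insert]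
      rintro (h1 | h1)
      · exact hzb (h1 ▸ hvY)
      · exact hzA (bd_sub _ h1)
    have h2 := c.minF z hz hzA P hP.2.1 (fun y hy => adj_mem hzP h1 hy)
    have h3 : (bd G T P).card < (bd G T (F z)).card := by
      refine hP.1.lt Finset.inter_subset_right fun h => ?_
      exact not_sub ⟨⟨z, hz, hzA, rfl⟩, hmax⟩ hX hne.symm (by
        rw [h]; exact Finset.inter_subset_left)
    omega
  have h4 := c.minF z hz hzA B (fun x hx => Finset.mem_union_left _ (hAR hx)) (by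
    intro y hy
    by_cases hyP : y ∈ P
    · exact Finset.mem_union_left _ (hAR (hnb z hzF hzP y hyP hy))
    · exact Finset.mem_union_right _ (Finset.mem_sdiff.2 ⟨adj_mem hzF hzb hy, hyP⟩))
  omega

/-- **The petal theorem.** -/
theorem petal (c : Ctx G T Q A₀ F h) : ∃ X₀ S : Finset U, X₀ ⊆ S ∧ X₀.card ≤ nX h ∧
    (∀ z ∈ Q, z ∈ S → z ∈ X₀) ∧
    ∀ z ∈ Q, z ∉ S → ∃ E : Finset U, E.card ≤ 2 ∧
      ∀ u, Relation.ReflTransGen (fun a b => G.Adj a b ∧ b ∉ S) z u → u ∉ T ∧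
        ∀ v, G.Adj u v → v ∈ S → v ∈ X₀ ∨ v ∈ E := by
  classical
  obtain ⟨A', X₀, hsubA, hbA, hbA', hcard, hXA, hexc, hbase⟩ := c.exists_exc
  set S : Finset U := X₀ ∪ (Finset.univ.filter (Mx Q A₀ F)).biUnion (fun X => bd G T X \ A')
    with hS
  have memS : ∀ v, v ∈ S ↔ v ∈ X₀ ∨ ∃ X, Mx Q A₀ F X ∧ v ∈ bd G T X ∧ v ∉ A' := by
    intro v
    simp only [hS, Finset.mem_union, Finset.mem_biUnion, Finset.mem_filter, Finset.mem_univ,
      true_and, Finset.mem_sdiff]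
  have hM := fun {X Y : Finset U} (hX : Mx Q A₀ F X) (hY : Mx Q A₀ F Y) {v : U} hvY hvA hvX =>
    c.lemM hsubA hexc hbase hX hY (v := v) hvY hvA hvX
  have hint : ∀ z ∈ Q, z ∉ A' → ∃ X, Mx Q A₀ F X ∧ z ∈ X ∧ z ∉ bd G T X := by
    intro z hz hzA'
    have hzA : z ∉ A₀ := fun h => hzA' (hsubA h)
    obtain ⟨X, hX, hzX⟩ := c.exists_Mx hz hzA
    obtain ⟨h1, h2⟩ := c.self_mem hz hzA
    exact ⟨X, hX, hzX h1, fun h3 => h2 (bd_anti hzX h1 h3)⟩
  refine ⟨X₀, S, Finset.subset_union_left, hcard, ?_, ?_⟩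
  · intro z hz hzS
    rcases (memS z).1 hzS with h1 | ⟨Y, hY, hzY, hzA'⟩
    · exact h1
    · exfalso
      obtain ⟨X, hX, hzX, hzb⟩ := hint z hz hzA'
      exact hzb (hM hX hY hzY hzA' hzX)
  · intro z hz hzS
    by_cases hzA' : z ∈ A'
    · refine ⟨∅, by simp, fun u hu => ?_⟩
      have hu' : u ∈ A' ∧ u ∉ bd G T A' := by
        induction hu with
        | refl => exact ⟨hzA', fun h => hzS ((memS z).2 (Or.inl (hbA' h)))⟩
        | tail _ hab ih =>
          refine ⟨adj_mem ih.1 ih.2 hab.1, fun h => hab.2 ((memS _).2 (Or.inl (hbA' h)))⟩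
      refine ⟨notMem_T hu'.1 hu'.2, fun v huv hvS => Or.inl ?_⟩
      have hvA' := adj_mem hu'.1 hu'.2 huv
      rcases (memS v).1 hvS with h1 | ⟨Y, -, -, h1⟩
      · exact h1
      · exact absurd hvA' h1
    · obtain ⟨X, hX, hzX, hzb⟩ := hint z hz hzA'
      obtain ⟨R, hAR, hRX, hRA, hRb, hRX₀⟩ := hbase X hX (fun h => hzA' (h hzX))
      refine ⟨bd G T X \ bd G T R, ?_, fun u hu => ?_⟩
      · rw [Finset.card_sdiff_of_subset hRb]
        have h1 := c.Mx_ord hX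
        have h2 := c.cl.le hAR
        rw [c.ord] at h2
        omega
      · have hu' : u ∈ X ∧ u ∉ bd G T X ∧ u ∉ A' := by
          induction hu with
          | refl => exact ⟨hzX, hzb, hzA'⟩
          | @tail b d _ hab ih =>
            have h1 : d ∈ X := adj_mem ih.1 ih.2.1 hab.1
            have h2 : d ∉ A' := by
              intro h2
              refine hab.2 ((memS d).2 (Or.inl (hbA' ?_)))
              exact mem_bd.2 ⟨h2, Or.inr ⟨b, ih.2.2, hab.1.symm⟩⟩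
            exact ⟨h1, fun h3 => hab.2 ((memS d).2 (Or.inr ⟨X, hX, h3, h2⟩)), h2⟩
        refine ⟨notMem_T hu'.1 hu'.2.1, fun v huv hvS => ?_⟩
        have hvX : v ∈ X := adj_mem hu'.1 hu'.2.1 huv
        by_cases hvA' : v ∈ A'
        · exact Or.inl (hbA' (mem_bd.2 ⟨hvA', Or.inr ⟨u, hu'.2.2, huv.symm⟩⟩))
        · rcases (memS v).1 hvS with h1 | ⟨Y, hY, hvY, -⟩
          · exact Or.inl h1
          · right
            rw [Finset.mem_sdiff]
            exact ⟨hM hX hY hvY hvA' hvX, fun h => hvA' (hRA (bd_sub _ h))⟩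

end Ctx

end K4L
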