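import Pool.Agent.Helper82.K4.Fan
import Pool.Agent.Helper82.G.PocketsGrid

/-!
# Theorem L: linked bad elements

`D` is independent in `M`, `(M / D) | W` is cobicircular for the plain `n × n` grid, and every
element of `D ∪ W` has a finite set of locations; the elements of `W` have at most two.  The
elements of `D` with at least three locations are bad.  In the graph `lk D S` whose vertices are
the locations and the bad elements (two locations are adjacent if they are the locations of an
element of `D` which is not bad, a bad element is adjacent to its locations), `m` different bad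
elements have triples of locations whose union is linked to the locations of `W`.
-/

open Set BIC BICS BIC.Cnt
open scoped Matroid

namespace K4L

variable {α V ι : Type*}

open Classical in
/-- The pocket count with a rank hypothesis, no pocket contains a location of `W`. -/
theorem pockets_grid [Fintype V] [Fintype ι] (M : Matroid α) [M.Finite] (D W : Finset α)
    (hDE : (D : Set α) ⊆ M.E) (hWE : (W : Set α) ⊆ M.E) (hDW : Disjoint (D : Set α) (W : Set α))
    (hD : M.Indep (D : Set α)) (hrk : rk M ((W : Set α) ∪ (D : Set α)) = Fintype.card V)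
    (h : ℕ) (S : α → Finset V)
    (hr : ∀ K : Finset V, rk M {e | (e ∈ D ∨ e ∈ W) ∧ ∀ x ∈ K, x ∉ S e} + K.card ≤
      Fintype.card V + h)
    (pk : V → Option ι) (at' : ι → Finset V) (hat : ∀ i, (at' i).card ≤ 2)
    (hatp : ∀ i, ∀ x ∈ at' i, pk x = none)
    (hS : ∀ e, e ∈ D ∨ e ∈ W → ((∀ x ∈ S e, pk x = none) ∧ (S e).card ≤ 2) ∨
      ∃ i, ∀ x ∈ S e, pk x = some i ∨ x ∈ at' i)
    (hSW : ∀ e ∈ W, ∀ x ∈ S e, pk x = none)
    (ends : α → Sym2 (ℕ × ℕ)) (n : ℕ) (hn : 2 ≤ n) (hG : Grd (W : Set α) ends 0 0 n n)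
    (hB : Bic ((M ／ (D : Set α)) ↾ (W : Set α))✶ (W : Set α) ends) :
    n * n ≤ 6 * n + 330 * h := by
  set N := (M ／ (D : Set α)) ↾ (W : Set α) with hN
  have hWMD : (W : Set α) ⊆ M.E \ (D : Set α) := fun e he =>
    ⟨hWE he, fun h => Set.disjoint_left.1 hDW h he⟩
  have hNfin : N.Finite := by
    refine ⟨?_⟩
    rw [hN, Matroid.restrict_ground_eq]
    exact W.finite_toSet
  have hNE : N.E = (W : Set α) := by rw [hN, Matroid.restrict_ground_eq]
  have hrN : ∀ Y : Set α, Y ⊆ (W : Set α) → rk N Y + D.card = rk M (Y ∪ (D : Set α)) := by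
    intro Y hY
    have h1 : rk N Y = rk (M ／ (D : Set α)) Y := by
      unfold rk
      rw [hN, Matroid.restrict_eRk_eq _ hY]
    rw [h1, ← rk_contract_set hDE (hY.trans hWMD), rk_indep hD, Set.ncard_coe_finset]
  have hWN : rk N (W : Set α) + D.card = Fintype.card V := by
    rw [hrN _ (subset_refl _), hrk]
  have hdual : ∀ Y : Set α, Y ⊆ (W : Set α) →
      rk N✶ Y + rk N (W : Set α) = rk N ((W : Set α) \ Y) + Y.ncard := by
    intro Y hY
    have := rk_dual (M := N) (X := Y) (by rw [hNE]; exact hY)
    rwa [hNE] at this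
  have hempty : ∀ i, W.filter (fun w => ∃ x ∈ S w, pk x = some i) = ∅ := by
    intro i
    rw [Finset.filter_eq_empty_iff]
    rintro w hw ⟨x, hx, hxi⟩
    rw [hSW w hw x hx] at hxi
    exact absurd hxi (by simp)
  have hmain := rcnt_pockets M D W S pk at' hat hatp ends h 4 4 0 hr hS ?_
    (fun A hA hA4 => exists_ends_of_card_le_four A ends hA4 (hG.inj.mono (fun e he => hA he))
      (fun e he => grd_not_diag hG (hA he)))
    (fun u A hA hu => grd_deg hG u A (fun e he => hA he) hu)
    (fun i => by
      rw [hempty i]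
      exact ⟨by simp, fun _ => (0, 0), by simp, by simp⟩)
  · have h1 : rk N✶ (W : Set α) = n * n := rk_rect hB hG hn hn
    have h2 := hdual (W : Set α) (subset_refl _)
    rw [h1, sdiff_self, Set.ncard_coe_finset] at h2
    have h3 : rk N (∅ : Set α) = 0 := by
      have := rk_le_ncard N (X := (∅ : Set α)) Set.finite_empty
      rw [Set.ncard_empty] at this
      exact Nat.le_zero.1 this
    rw [h3] at h2
    have h4 := grd_card_ge hG W.finite_toSet
    rw [Set.ncard_coe_finset] at h4
    have h5 : n * (n - 1) + n = n * n := by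
      obtain ⟨m, rfl⟩ : ∃ m, n = m + 1 := ⟨n - 1, by omega⟩
      simp only [Nat.add_sub_cancel]
      ring
    have h6 : (4 + 1) * (4 * 4 * 4 + 1) * h + (4 + 1) * (2 * 0 * 4 + 1) * h =
        330 * h := by ring
    omega
  · rintro A hA ⟨ψ, hψ, hψe⟩
    have hAW : (A : Set α) ⊆ (W : Set α) := fun e he => hA he
    have h1 : N✶.Indep (A : Set α) := hB.ind _ ψ hAW hψ hψe
    have h2 := rk_indep h1
    have h3 := hdual _ hAW
    have h4 := hrN _ (sdiff_subset : (W : Set α) \ (A : Set α) ⊆ (W : Set α))
    rw [union_comm]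
    omega

/-- The graph of the locations and the bad elements. -/
def lk (D : Finset α) (S : α → Finset V) : SimpleGraph (V ⊕ {d // d ∈ D}) where
  Adj a b := match a, b with
    | .inl x, .inl y => x ≠ y ∧ ∃ d ∈ D, (S d).card ≤ 2 ∧ x ∈ S d ∧ y ∈ S d
    | .inl x, .inr d => 3 ≤ (S d.1).card ∧ x ∈ S d.1
    | .inr d, .inl x => 3 ≤ (S d.1).card ∧ x ∈ S d.1
    | .inr _, .inr _ => False
  symm := ⟨by
    rintro (x | d) (y | d') h
    · obtain ⟨h1, d, hd, h2, h3, h4⟩ := h
      exact ⟨h1.symm, d, hd, h2, h4, h3⟩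
    · exact h
    · exact h
    · exact h⟩
  loopless := ⟨by
    rintro (x | d) h
    · exact h.1 rfl
    · exact h⟩

open Classical in
/-- The locations of `W`. -/
noncomputable def tg [Fintype V] (D W : Finset α) (S : α → Finset V) :
    Finset (V ⊕ {d // d ∈ D}) :=
  Finset.univ.filter (fun u => ∃ x, u = Sum.inl x ∧ ∃ w ∈ W, x ∈ S w)

open Classical in
/-- The bad elements. -/
noncomputable def bads [Fintype V] (D : Finset α) (S : α → Finset V) :
    Finset (V ⊕ {d // d ∈ D}) :=
  Finset.univ.filter (fun u => ∃ d : {d // d ∈ D}, u = Sum.inr d ∧ 3 ≤ (S d.1).card)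

open Classical in
/-- **Theorem L.** -/
theorem thmL [Fintype V] (m : ℕ) (M : Matroid α) [M.Finite] (D W : Finset α)
    (hDE : (D : Set α) ⊆ M.E) (hWE : (W : Set α) ⊆ M.E) (hDW : Disjoint (D : Set α) (W : Set α))
    (hD : M.Indep (D : Set α)) (hrk : rk M ((W : Set α) ∪ (D : Set α)) = Fintype.card V)
    (S : α → Finset V)
    (hr : ∀ K : Finset V, rk M {e | (e ∈ D ∨ e ∈ W) ∧ ∀ x ∈ K, x ∉ S e} + K.card ≤
      Fintype.card V)
    (hSW : ∀ w ∈ W, (S w).card ≤ 2)
    (ends : α → Sym2 (ℕ × ℕ)) (n : ℕ) (hn : 2 ≤ n) (hG : Grd (W : Set α) ends 0 0 n n)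
    (hB : Bic ((M ／ (D : Set α)) ↾ (W : Set α))✶ (W : Set α) ends)
    (hnm : 6 * n + 330 * (Ctx.nX (3 * m) + m) < n * n) :
    ∃ (z : Fin m → α) (t : Fin m → Finset V), Function.Injective z ∧
      (∀ i, z i ∈ D ∧ t i ⊆ S (z i) ∧ (t i).card = 3) ∧
      ∀ A : Finset (V ⊕ {d // d ∈ D}), (∀ i, ∀ x ∈ t i, Sum.inl x ∈ A) →
        3 * m ≤ (bd (lk D S) (tg D W S) A).card := by
  have memT : ∀ x : V, (Sum.inl x : V ⊕ {d // d ∈ D}) ∈ tg D W S ↔ ∃ w ∈ W, x ∈ S w := by
    intro x
    simp only [tg, Finset.mem_filter, Finset.mem_univ, true_and, Sum.inl.injEq]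
    constructor
    · rintro ⟨y, rfl, hy⟩
      exact hy
    · intro h
      exact ⟨x, rfl, h⟩
  have hQT : ∀ z ∈ bads D S, z ∉ tg D W S := by
    intro z hz hzT
    simp only [bads, tg, Finset.mem_filter, Finset.mem_univ, true_and] at hz hzT
    obtain ⟨d, rfl, -⟩ := hz
    obtain ⟨x, hx, -⟩ := hzT
    exact absurd hx (by simp)
  rcases fan (G := lk D S) hQT m with ⟨z', t', hz', hzQ, htz, ht3, hlink⟩ |
    ⟨j, hj, X₀, Ss, hXS, hXc, hQS, hpet⟩
  · -- gadgets
    have h1 : ∀ i, ∃ d : {d // d ∈ D}, z' i = Sum.inr d ∧ 3 ≤ (S d.1).card := by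
      intro i
      simpa only [bads, Finset.mem_filter, Finset.mem_univ, true_and] using hzQ i
    choose z hz hz3 using h1
    have h2 : ∀ i, ∀ u ∈ t' i, ∃ x : V, u = Sum.inl x ∧ x ∈ S (z i).1 := by
      intro i u hu
      have h3 := htz i u hu
      rw [hz i] at h3
      rcases u with x | d
      · exact ⟨x, rfl, h3.2⟩
      · exact h3.elim
    refine ⟨fun i => (z i).1, fun i => Finset.univ.filter (fun x : V => Sum.inl x ∈ t' i), ?_, ?_,
      ?_⟩
    · intro a b hab
      apply hz'
      rw [hz a, hz b, Subtype.ext hab]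
    · intro i
      refine ⟨(z i).2, ?_, ?_⟩
      · intro x hx
        obtain ⟨y, hy, hyS⟩ := h2 i _ (Finset.mem_filter.1 hx).2
        rw [Sum.inl.injEq] at hy
        rwa [hy]
      · rw [← ht3 i]
        refine Finset.card_bij (fun x _ => Sum.inl x) ?_ ?_ ?_
        · intro x hx
          exact (Finset.mem_filter.1 hx).2
        · intro x _ y _ hxy
          exact Sum.inl_injective hxy
        · intro u hu
          obtain ⟨x, rfl, -⟩ := h2 i u hu
          exact ⟨x, Finset.mem_filter.2 ⟨Finset.mem_univ _, hu⟩, rfl⟩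
    · intro A hA
      refine hlink A fun i u hu => ?_
      obtain ⟨x, rfl, -⟩ := h2 i u hu
      exact hA i x (Finset.mem_filter.2 ⟨Finset.mem_univ _, hu⟩)
  · -- pockets
    exfalso
    set G' : SimpleGraph (V ⊕ {d // d ∈ D}) :=
      { Adj := fun a b => (lk D S).Adj a b ∧ a ∉ Ss ∧ b ∉ Ss
        symm := ⟨fun a b h => ⟨h.1.symm, h.2.2, h.2.1⟩⟩
        loopless := ⟨fun a h => (lk D S).irrefl h.1⟩ } with hG'
    have hfin : Finite G'.ConnectedComponent :=
      Finite.of_surjective G'.connectedComponentMk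
        (fun c => by
          induction c using SimpleGraph.ConnectedComponent.ind with
          | _ v => exact ⟨v, rfl⟩)
    have hft : Fintype G'.ConnectedComponent := Fintype.ofFinite _
    have hreach : ∀ {z u}, G'.Reachable z u →
        Relation.ReflTransGen (fun a b => (lk D S).Adj a b ∧ b ∉ Ss) z u := by
      intro z u h
      rw [SimpleGraph.reachable_iff_reflTransGen] at h
      exact Relation.ReflTransGen.mono (fun a b hab => ⟨hab.1, hab.2.2⟩) _ _ h
    -- pockets and attachments
    have hEx : ∀ i : G'.ConnectedComponent, ∃ E : Finset (V ⊕ {d // d ∈ D}), E.card ≤ 2 ∧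
        ∀ z ∈ bads D S, z ∉ Ss → G'.connectedComponentMk z = i →
          ∀ u, G'.Reachable z u → ∀ v, (lk D S).Adj u v → v ∈ Ss → v ∈ X₀ ∨ v ∈ E := by
      intro i
      by_cases hi : ∃ z ∈ bads D S, z ∉ Ss ∧ G'.connectedComponentMk z = i
      · obtain ⟨z, hz, hzS, hzi⟩ := hi
        obtain ⟨E, hE, hpE⟩ := hpet z hz hzS
        refine ⟨E, hE, fun y hy hyS hyi u hyu v huv hvS => ?_⟩
        have h1 : G'.Reachable z y := by
          rw [← SimpleGraph.ConnectedComponent.eq, hzi, hyi]
        exact (hpE u (hreach (h1.trans hyu))).2 v huv hvS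
      · push Not at hi
        exact ⟨∅, by simp, fun z hz hzS hzi => absurd hzi (hi z hz hzS)⟩
    choose E hE hpE using hEx
    have hT : ∀ z ∈ bads D S, z ∉ Ss → ∀ u, G'.Reachable z u → u ∉ tg D W S := by
      intro z hz hzS u hu
      obtain ⟨E, -, hpE⟩ := hpet z hz hzS
      exact (hpE u (hreach hu)).1
    set pk : V → Option G'.ConnectedComponent := fun x =>
      if Sum.inl x ∉ Ss ∧ ∃ z ∈ bads D S, z ∉ Ss ∧ G'.Reachable z (Sum.inl x) then
        some (G'.connectedComponentMk (Sum.inl x)) else none with hpk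
    have pk_some : ∀ x i, pk x = some i ↔ (Sum.inl x ∉ Ss ∧ (∃ z ∈ bads D S, z ∉ Ss ∧
        G'.Reachable z (Sum.inl x))) ∧ G'.connectedComponentMk (Sum.inl x) = i := by
      intro x i
      simp only [hpk]
      split_ifs with h
      · simp [h]
      · simp only [false_iff]
        exact fun h' => h h'.1
    set at' : G'.ConnectedComponent → Finset V := fun i =>
      Finset.univ.filter (fun x : V => Sum.inl x ∈ E i ∧ Sum.inl x ∈ Ss) with hat'
    set Sn : α → Finset V := fun e => (S e).filter (fun x => Sum.inl x ∉ X₀ ∧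
      ∀ he : e ∈ D, 3 ≤ (S e).card → Sum.inr ⟨e, he⟩ ∉ X₀) with hSn
    -- propagation along an edge of a pocket
    have hprop : ∀ (u : V ⊕ {d // d ∈ D}) (i : G'.ConnectedComponent),
        G'.connectedComponentMk u = i → u ∉ Ss →
        (∃ z ∈ bads D S, z ∉ Ss ∧ G'.Reachable z u) → ∀ y : V, Sum.inl y ∉ X₀ →
        (lk D S).Adj u (Sum.inl y) → pk y = some i ∨ y ∈ at' i := by
      rintro u i hui huS ⟨z, hz, hzS, hzu⟩ y hyX huy
      by_cases hyS : Sum.inl y ∈ Ss
      · right
        rw [hat', Finset.mem_filter]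
        refine ⟨Finset.mem_univ _, ?_, hyS⟩
        have h1 : G'.connectedComponentMk z = i := by
          rw [← hui, SimpleGraph.ConnectedComponent.eq]
          exact hzu
        exact (hpE i z hz hzS h1 u hzu _ huy hyS).resolve_left hyX
      · left
        have h1 : G'.Reachable u (Sum.inl y) :=
          SimpleGraph.Adj.reachable (show G'.Adj u (Sum.inl y) from ⟨huy, huS, hyS⟩)
        rw [pk_some]
        refine ⟨⟨hyS, z, hz, hzS, hzu.trans h1⟩, ?_⟩
        rw [← hui, SimpleGraph.ConnectedComponent.eq]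
        exact h1.symm
    have hmain := pockets_grid M D W hDE hWE hDW hD hrk X₀.card Sn ?_ pk at' ?_ ?_ ?_ ?_ ends n
      hn hG hB
    · -- numbers
      have h1 : Ctx.nX (3 * j) + j ≤ Ctx.nX (3 * m) + m := by
        have h2 : 3 * j ≤ 3 * m := by omega
        unfold Ctx.nX Ctx.nA
        gcongr
      have h2 : 330 * X₀.card ≤ 330 * (Ctx.nX (3 * m) + m) := Nat.mul_le_mul_left _ (by omega)
      omega
    · -- ranks
      intro K
      set K' := K.filter (fun x => Sum.inl x ∉ X₀) with hK'
      set Z : Finset α := D.filter (fun d => ∃ h : d ∈ D, Sum.inr ⟨d, h⟩ ∈ X₀) with hZ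
      have h1 : {e | (e ∈ D ∨ e ∈ W) ∧ ∀ x ∈ K, x ∉ Sn e} ⊆
          {e | (e ∈ D ∨ e ∈ W) ∧ ∀ x ∈ K', x ∉ S e} ∪ (Z : Set α) := by
        rintro e ⟨he, heK⟩
        by_cases heZ : e ∈ Z
        · exact Or.inr heZ
        · left
          refine ⟨he, fun x hx hxe => ?_⟩
          rw [hK', Finset.mem_filter] at hx
          refine heK x hx.1 ?_
          rw [hSn, Finset.mem_filter]
          refine ⟨hxe, hx.2, fun heD _ hX => heZ ?_⟩
          rw [hZ, Finset.mem_filter]
          exact ⟨heD, heD, hX⟩
      have h2 := rk_mono M h1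
      have h3 := rk_submod M {e | (e ∈ D ∨ e ∈ W) ∧ ∀ x ∈ K', x ∉ S e} (Z : Set α)
      have h4 : rk M (Z : Set α) ≤ Z.card := by
        have := rk_le_ncard M (X := (Z : Set α)) Z.finite_toSet
        rwa [Set.ncard_coe_finset] at this
      have h5 := hr K'
      have h6 : K.card ≤ K'.card + (K.filter (fun x => Sum.inl x ∈ X₀)).card := by
        have h61 : K ⊆ K' ∪ K.filter (fun x => Sum.inl x ∈ X₀) := by
          intro x hx
          by_cases hxX : (Sum.inl x : V ⊕ {d // d ∈ D}) ∈ X₀
          · exact Finset.mem_union_right _ (Finset.mem_filter.2 ⟨hx, hxX⟩)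
          · exact Finset.mem_union_left _ (Finset.mem_filter.2 ⟨hx, hxX⟩)
        exact (Finset.card_le_card h61).trans (Finset.card_union_le _ _)
      have h7 : (K.filter (fun x => Sum.inl x ∈ X₀)).card + Z.card ≤ X₀.card := by
        have h8 : (K.filter (fun x => Sum.inl x ∈ X₀)).image
            (Sum.inl : V → V ⊕ {d // d ∈ D}) ∪
            (Finset.univ.filter (fun d : {d // d ∈ D} => Sum.inr d ∈ X₀)).image Sum.inr ⊆ X₀ := by
          intro u hu
          rw [Finset.mem_union, Finset.mem_image, Finset.mem_image] at hu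
          rcases hu with ⟨x, hx, rfl⟩ | ⟨d, hd, rfl⟩
          · exact (Finset.mem_filter.1 hx).2
          · exact (Finset.mem_filter.1 hd).2
        have h9 := Finset.card_le_card h8
        rw [Finset.card_union_of_disjoint, Finset.card_image_of_injective _ Sum.inl_injective,
          Finset.card_image_of_injective _ Sum.inr_injective] at h9
        · have h10 : Z.card ≤
              (Finset.univ.filter (fun d : {d // d ∈ D} => Sum.inr d ∈ X₀)).card := by
            have h11 : Z ⊆ (Finset.univ.filter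
                (fun d : {d // d ∈ D} => Sum.inr d ∈ X₀)).image Subtype.val := by
              intro d hd
              rw [hZ, Finset.mem_filter] at hd
              obtain ⟨-, hd, hdX⟩ := hd
              exact Finset.mem_image.2 ⟨⟨d, hd⟩, Finset.mem_filter.2 ⟨Finset.mem_univ _, hdX⟩, rfl⟩
            exact (Finset.card_le_card h11).trans Finset.card_image_le
          omega
        · rw [Finset.disjoint_left]
          intro u hu hu'
          obtain ⟨x, -, rfl⟩ := Finset.mem_image.1 hu
          obtain ⟨d, -, hd⟩ := Finset.mem_image.1 hu'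
          exact absurd hd (by simp)
      omega
    · -- attachments
      intro i
      refine le_trans ?_ (hE i)
      rw [← Finset.card_image_of_injective _
        (Sum.inl_injective : Function.Injective (Sum.inl : V → V ⊕ {d // d ∈ D}))]
      refine Finset.card_le_card fun u hu => ?_
      obtain ⟨x, hx, rfl⟩ := Finset.mem_image.1 hu
      rw [hat', Finset.mem_filter] at hx
      exact hx.2.1
    · intro i x hx
      rw [hat', Finset.mem_filter] at hx
      cases hpx : pk x with
      | none => rfl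
      | some i' => exact absurd hx.2.2 ((pk_some x i').1 hpx).1.1
    · -- locations
      intro e he
      by_cases heW : e ∈ W
      · left
        refine ⟨fun x hx => ?_, (Finset.card_le_card (Finset.filter_subset _ _)).trans
          (hSW e heW)⟩
        cases hpx : pk x with
        | none => rfl
        | some i =>
          obtain ⟨⟨-, z, hz, hzS, hzx⟩, -⟩ := (pk_some x i).1 hpx
          exact absurd ((memT x).2 ⟨e, heW, (Finset.mem_filter.1 hx).1⟩) (hT z hz hzS _ hzx)
      · have heD : e ∈ D := he.resolve_right heW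
        by_cases h3 : 3 ≤ (S e).card
        · by_cases hX : Sum.inr ⟨e, heD⟩ ∈ X₀
          · left
            have h4 : Sn e = ∅ := by
              rw [Finset.eq_empty_iff_forall_notMem]
              intro x hx
              rw [hSn, Finset.mem_filter] at hx
              exact hx.2.2 heD h3 hX
            rw [h4]
            simp
          · right
            have hb : (Sum.inr ⟨e, heD⟩ : V ⊕ {d // d ∈ D}) ∈ bads D S := by
              simp only [bads, Finset.mem_filter, Finset.mem_univ, true_and]
              exact ⟨⟨e, heD⟩, rfl, h3⟩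
            have hbS : (Sum.inr ⟨e, heD⟩ : V ⊕ {d // d ∈ D}) ∉ Ss := fun h => hX (hQS _ hb h)
            refine ⟨G'.connectedComponentMk (Sum.inr ⟨e, heD⟩), fun x hx => ?_⟩
            rw [hSn, Finset.mem_filter] at hx
            exact hprop _ _ rfl hbS ⟨_, hb, hbS, SimpleGraph.Reachable.refl _⟩ x hx.2.1
              (show _ ∧ _ from ⟨h3, hx.1⟩)
        · by_cases hall : ∀ x ∈ Sn e, pk x = none
          · exact Or.inl ⟨hall, (Finset.card_le_card (Finset.filter_subset _ _)).trans
              (by omega)⟩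
          · right
            push Not at hall
            obtain ⟨x, hx, hpx⟩ := hall
            obtain ⟨i, hi⟩ := Option.ne_none_iff_exists'.1 hpx
            refine ⟨i, fun y hy => ?_⟩
            by_cases hxy : x = y
            · exact Or.inl (hxy ▸ hi)
            · obtain ⟨⟨hxS, hz⟩, hxi⟩ := (pk_some x i).1 hi
              rw [hSn, Finset.mem_filter] at hx hy
              exact hprop (Sum.inl x) i hxi hxS hz y hy.2.1
                (show _ ∧ _ from ⟨hxy, e, heD, by omega, hx.1, hy.1⟩)
    · intro e heW x hx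
      cases hpx : pk x with
      | none => rfl
      | some i =>
        obtain ⟨⟨-, z, hz, hzS, hzx⟩, -⟩ := (pk_some x i).1 hpx
        exact absurd ((memT x).2 ⟨e, heW, (Finset.mem_filter.1 hx).1⟩) (hT z hz hzS _ hzx)

end K4L
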